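import Mathlib
import Pool.Agent.Helper16.UB.Mert
import Pool.Agent.Helper6.ER.Defs

/-!
# ER-5, ER-10: elementary estimates for prime numbers (helper16)
-/

set_option autoImplicit false

namespace Pool.Agent.Helper6.ER

open Finset Pool.Agent.Helper16.UB

/-- the value of `τ(g) / φ(g)` for squarefree `g` -/
theorem tau_phi_eq {g : ℕ} (hg : Squarefree g) :
    (g.divisors.card : ℝ) / g.totient = ∏ p ∈ g.primeFactors, 2 / ((p : ℝ) - 1) := by
  have h0 : g ≠ 0 := hg.ne_zero
  have h1 : g.divisors.card = ∏ p ∈ g.primeFactors, 2 := by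
    rw [Nat.card_divisors h0]
    refine prod_congr rfl fun p hp => ?_
    rw [Nat.mem_primeFactors] at hp
    have h2 : 1 ≤ g.factorization p := (hp.1.dvd_iff_one_le_factorization h0).1 hp.2.1
    have h3 := hg.natFactorization_le_one p
    omega
  have h2 : g.totient = ∏ p ∈ g.primeFactors, (p - 1) := by
    have h3 := Nat.totient_mul_prod_primeFactors g
    rw [Nat.prod_primeFactors_of_squarefree hg, mul_comm] at h3
    exact Nat.eq_of_mul_eq_mul_left (Nat.pos_of_ne_zero h0) h3
  rw [h1, h2]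
  push_cast
  rw [← prod_div_distrib]
  refine prod_congr rfl fun p hp => ?_
  have h3 : 1 ≤ p := (Nat.prime_of_mem_primeFactors hp).one_le
  rw [Nat.cast_sub h3]
  simp

/-- ER-5 -/
theorem sum_tau_phi : ∃ C : ℝ, 0 < C ∧ ∀ D : ℕ, 1 ≤ D →
    ∑ g ∈ (Icc 1 D).filter Squarefree, (g.divisors.card : ℝ) / g.totient ≤
      C * (1 + Real.log D) ^ 2 := by
  obtain ⟨C, hC⟩ := exists_W_le
  refine ⟨Real.exp (2 * (C + 1)) + 1, by positivity, fun D hD => ?_⟩
  have hE := Real.exp_pos (2 * (C + 1))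
  rcases Nat.lt_or_ge D 2 with hD2 | hD2
  · have : D = 1 := by omega
    subst this
    have : (Icc 1 1).filter Squarefree = {1} := by
      ext a
      simp only [Icc_self, mem_filter, mem_singleton]
      constructor
      · exact fun h => h.1
      · rintro rfl
        exact ⟨rfl, squarefree_one⟩
    rw [this]
    simp only [sum_singleton, Nat.divisors_one, card_singleton, Nat.cast_one, Nat.totient_one,
      div_one, Real.log_one, add_zero, one_pow, mul_one]
    linarith
  have hlog : 0 < Real.log D := Real.log_pos (by exact_mod_cast hD2)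
  have h1 : ∑ g ∈ (Icc 1 D).filter Squarefree, (g.divisors.card : ℝ) / g.totient ≤
      ∏ p ∈ PL D, (1 + 2 / ((p : ℝ) - 1)) := by
    rw [prod_one_add]
    have h2 : ∑ g ∈ (Icc 1 D).filter Squarefree, (g.divisors.card : ℝ) / g.totient =
        ∑ t ∈ ((Icc 1 D).filter Squarefree).image (fun g : ℕ => g.primeFactors),
          ∏ p ∈ t, (fun p : ℕ => 2 / ((p : ℝ) - 1)) p := by
      rw [sum_image]
      · refine sum_congr rfl fun g hg => ?_
        exact tau_phi_eq (mem_filter.1 hg).2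
      · intro a ha b hb hab
        have ha' := (mem_filter.1 (mem_coe.1 ha)).2
        have hb' := (mem_filter.1 (mem_coe.1 hb)).2
        simp only at hab
        rw [← Nat.prod_primeFactors_of_squarefree ha', ← Nat.prod_primeFactors_of_squarefree hb',
          hab]
    rw [h2]
    apply sum_le_sum_of_subset_of_nonneg
    · intro t ht
      obtain ⟨g, hg, rfl⟩ := mem_image.1 ht
      rw [mem_powerset]
      intro p hp
      rw [mem_PL]
      rw [mem_filter, mem_Icc] at hg
      rw [Nat.mem_primeFactors] at hp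
      exact ⟨(Nat.le_of_dvd hg.1.1 hp.2.1).trans hg.1.2, hp.1⟩
    · intro t ht _
      refine prod_nonneg fun p hp => ?_
      have hp1 : (1 : ℝ) < p := by
        exact_mod_cast (mem_PL.1 (mem_powerset.1 ht hp)).2.one_lt
      have : (0 : ℝ) < (p : ℝ) - 1 := by linarith
      positivity
  refine h1.trans ?_
  have h3 : ∏ p ∈ PL D, (1 + 2 / ((p : ℝ) - 1)) ≤ ∏ p ∈ PL D, Real.exp (2 / ((p : ℝ) - 1)) := by
    apply prod_le_prod
    · intro p hp
      have hp1 : (1 : ℝ) < p := by exact_mod_cast (mem_PL.1 hp).2.one_lt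
      have : (0 : ℝ) < (p : ℝ) - 1 := by linarith
      positivity
    · intro p _
      have := Real.add_one_le_exp (2 / ((p : ℝ) - 1))
      linarith
  refine h3.trans ?_
  rw [← Real.exp_sum]
  have h4 : ∑ p ∈ PL D, 2 / ((p : ℝ) - 1) = 2 * ∑ p ∈ PL D, 1 / ((p : ℝ) - 1) := by
    rw [mul_sum]
    refine sum_congr rfl fun p _ => ?_
    ring
  have h5 : ∑ p ∈ PL D, 2 / ((p : ℝ) - 1) ≤ 2 * Real.log (Real.log D) + 2 * (C + 1) := by
    rw [h4]
    have := sum_inv_pred_le D
    have := hC D hD2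
    linarith
  calc Real.exp (∑ p ∈ PL D, 2 / ((p : ℝ) - 1))
      ≤ Real.exp (2 * Real.log (Real.log D) + 2 * (C + 1)) := Real.exp_le_exp.2 h5
    _ = Real.exp (2 * (C + 1)) * (Real.log D) ^ 2 := by
        rw [Real.exp_add, mul_comm, two_mul (Real.log (Real.log D)), Real.exp_add,
          Real.exp_log hlog]
        ring
    _ ≤ (Real.exp (2 * (C + 1)) + 1) * (1 + Real.log D) ^ 2 := by
        have : (Real.log D) ^ 2 ≤ (1 + Real.log D) ^ 2 := by
          apply pow_le_pow_left₀ hlog.le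
          linarith
        nlinarith [sq_nonneg (Real.log D)]

/-- lower bound for the Chebyshev function -/
theorem theta_lower : ∃ N₀ : ℕ, ∀ n ≥ N₀, Real.log 2 / 2 * n ≤ Chebyshev.theta n := by
  have h1 : (fun n : ℕ => Real.log (n + 1) + 2 * √(n : ℝ) * Real.log n) =o[Filter.atTop]
      fun n : ℕ => (n : ℝ) := by
    have hnat : Filter.Tendsto (fun n : ℕ => (n : ℝ)) Filter.atTop Filter.atTop :=
      tendsto_natCast_atTop_atTop
    have hA : (fun x : ℝ => Real.log (x + 1)) =o[Filter.atTop] fun x : ℝ => x := by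
      have h2 : Filter.Tendsto (fun x : ℝ => x + 1) Filter.atTop Filter.atTop :=
        Filter.tendsto_atTop_add_const_right _ _ Filter.tendsto_id
      have h3 := (Real.isLittleO_log_id_atTop.comp_tendsto h2)
      refine h3.trans_isBigO ?_
      have : (fun x : ℝ => x + 1) =O[Filter.atTop] fun x : ℝ => x := by
        refine Asymptotics.IsBigO.of_bound 2 ?_
        filter_upwards [Filter.eventually_ge_atTop 1] with x hx
        rw [Real.norm_of_nonneg (by linarith), Real.norm_of_nonneg (by linarith)]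
        linarith
      exact this
    have hB : (fun x : ℝ => 2 * √x * Real.log x) =o[Filter.atTop] fun x : ℝ => x := by
      have h3 : (fun x : ℝ => Real.log x) =o[Filter.atTop] fun x : ℝ => x ^ (1 / 2 : ℝ) :=
        isLittleO_log_rpow_atTop (by norm_num)
      have h4 : (fun x : ℝ => √x * Real.log x) =o[Filter.atTop]
          fun x : ℝ => √x * x ^ (1 / 2 : ℝ) :=
        (Asymptotics.isBigO_refl _ _).mul_isLittleO h3
      have h5 : (fun x : ℝ => √x * x ^ (1 / 2 : ℝ)) =ᶠ[Filter.atTop] fun x : ℝ => x := by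
        filter_upwards [Filter.eventually_ge_atTop 0] with x hx
        rw [← Real.sqrt_eq_rpow, Real.mul_self_sqrt hx]
      have h6 := (h4.congr' Filter.EventuallyEq.rfl h5).const_mul_left 2
      refine h6.congr_left fun x => ?_
      ring
    exact (hA.comp_tendsto hnat).add (hB.comp_tendsto hnat)
  have h2 := h1.bound (c := Real.log 2 / 2) (by positivity)
  obtain ⟨N, hN⟩ := Filter.eventually_atTop.1 h2
  refine ⟨N, fun n hn => ?_⟩
  have h3 := hN n hn
  have h4 := Chebyshev.theta_ge n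
  rw [Real.norm_of_nonneg (Nat.cast_nonneg n)] at h3
  have h5 := (le_abs_self _).trans h3
  linarith

/-- ER-10a -/
theorem prime_count : ∃ (c B : ℝ), 0 < c ∧ 1 ≤ B ∧ ∀ (x X : ℕ), 2 ≤ x → B * x ≤ X →
    c * X / Real.log X ≤ (((Ioc x X).filter Nat.Prime).card : ℝ) := by
  obtain ⟨N, hN⟩ := theta_lower
  have hl2 : 0 < Real.log 2 := Real.log_pos (by norm_num)
  refine ⟨Real.log 2 / 4, (N : ℝ) + 8, by positivity, by
    have : (0 : ℝ) ≤ N := Nat.cast_nonneg N
    linarith, fun x X hx hX => ?_⟩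
  have hN0 : (0 : ℝ) ≤ N := Nat.cast_nonneg N
  have hx2 : (2 : ℝ) ≤ x := by exact_mod_cast hx
  have hX1 : (N : ℝ) ≤ X := by nlinarith
  have hX1' : N ≤ X := by exact_mod_cast hX1
  have hX8 : 8 * (x : ℝ) ≤ X := by nlinarith
  have hxX : (x : ℝ) ≤ X := by linarith
  have hxX' : x ≤ X := by exact_mod_cast hxX
  have hlX : 0 < Real.log X := Real.log_pos (by linarith)
  have h1 := hN X hX1'
  have h2 := Chebyshev.theta_le_log4_mul_x (x := (x : ℝ)) (by linarith)
  have h4 : Real.log 4 = 2 * Real.log 2 := by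
    rw [show (4 : ℝ) = 2 ^ 2 by norm_num, Real.log_pow]; norm_num
  have h3 : Chebyshev.theta X - Chebyshev.theta x = ∑ p ∈ (Ioc x X).filter Nat.Prime,
      Real.log p := by
    rw [Chebyshev.theta_eq_sum_Icc, Chebyshev.theta_eq_sum_Icc, Nat.floor_natCast,
      Nat.floor_natCast, sum_filter, sum_filter, sum_filter, sub_eq_iff_eq_add]
    have hu : Icc 0 X = Ioc x X ∪ Icc 0 x := by
      ext a
      simp only [mem_Icc, mem_union, mem_Ioc]
      omega
    have hd : Disjoint (Ioc x X) (Icc 0 x) := by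
      rw [Finset.disjoint_left]
      intro a ha hb
      rw [mem_Ioc] at ha
      rw [mem_Icc] at hb
      omega
    rw [hu, sum_union hd]
  have h5 : ∑ p ∈ (Ioc x X).filter Nat.Prime, Real.log p ≤
      (((Ioc x X).filter Nat.Prime).card : ℝ) * Real.log X := by
    have : ∀ p ∈ (Ioc x X).filter Nat.Prime, Real.log p ≤ Real.log X := by
      intro p hp
      rw [mem_filter, mem_Ioc] at hp
      apply Real.log_le_log
      · exact_mod_cast hp.2.pos
      · exact_mod_cast hp.1.2
    have h6 := sum_le_card_nsmul _ _ _ this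
    rwa [nsmul_eq_mul] at h6
  rw [div_le_iff₀ hlX]
  refine le_trans ?_ h5
  rw [← h3]
  have h7 : Real.log 4 * x ≤ Real.log 2 / 4 * X := by
    rw [h4]
    nlinarith
  linarith

/-- ER-10b -/
theorem prod_primes_ge : ∃ c : ℝ, 0 < c ∧ ∀ E : ℕ, 1 ≤ E → ∀ N : Finset ℕ,
    (∀ q ∈ N, q.Prime ∧ Nat.log 2 q ≤ E) → c / E ≤ ∏ q ∈ N, (1 - 1 / (q : ℝ)) := by
  obtain ⟨C, hC⟩ := exists_W_le
  refine ⟨Real.exp (-(C + 1)) / 2, by positivity, fun E hE N hN => ?_⟩
  have hE1 : (1 : ℝ) ≤ E := by exact_mod_cast hE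
  have hl2 : 0 < Real.log 2 := Real.log_pos (by norm_num)
  have hl2' : Real.log 2 ≤ 1 := by
    have := Real.log_le_sub_one_of_pos (x := 2) (by norm_num)
    linarith
  have hsub : N ⊆ PL (2 ^ (E + 1)) := by
    intro q hq
    rw [mem_PL]
    obtain ⟨h1, h2⟩ := hN q hq
    refine ⟨?_, h1⟩
    have := Nat.lt_pow_succ_log_self (b := 2) (by norm_num) q
    have h3 : 2 ^ (Nat.log 2 q).succ ≤ 2 ^ (E + 1) := Nat.pow_le_pow_right (by norm_num) (by omega)
    omega
  have hpos : ∀ q ∈ PL (2 ^ (E + 1)), (1 : ℝ) < q := fun q hq => by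
    exact_mod_cast (mem_PL.1 hq).2.one_lt
  have h1 : ∀ q ∈ N, Real.exp (-(1 / ((q : ℝ) - 1))) ≤ 1 - 1 / (q : ℝ) := by
    intro q hq
    have hq1 := hpos q (hsub hq)
    have hq2 : (0 : ℝ) < q - 1 := by linarith
    rw [Real.exp_neg, inv_le_comm₀ (Real.exp_pos _) (by
      rw [sub_pos, div_lt_one (by linarith)]; exact hq1)]
    have h2 := Real.add_one_le_exp (1 / ((q : ℝ) - 1))
    have h3 : (1 - 1 / (q : ℝ))⁻¹ = 1 / ((q : ℝ) - 1) + 1 := by
      have : (q : ℝ) ≠ 0 := by linarith
      have : (q : ℝ) - 1 ≠ 0 := by linarith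
      field_simp
      ring
    rw [h3]
    exact h2
  have h2 : ∏ q ∈ N, Real.exp (-(1 / ((q : ℝ) - 1))) ≤ ∏ q ∈ N, (1 - 1 / (q : ℝ)) :=
    prod_le_prod (fun q _ => (Real.exp_pos _).le) h1
  refine le_trans ?_ h2
  rw [← Real.exp_sum, sum_neg_distrib]
  have h3 : ∑ q ∈ N, 1 / ((q : ℝ) - 1) ≤ ∑ q ∈ PL (2 ^ (E + 1)), 1 / ((q : ℝ) - 1) := by
    apply sum_le_sum_of_subset_of_nonneg hsub
    intro q hq _
    have := hpos q hq
    have : (0 : ℝ) < (q : ℝ) - 1 := by linarith
    positivity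
  have h4 := sum_inv_pred_le (2 ^ (E + 1))
  have h5 := hC (2 ^ (E + 1)) (by
    calc 2 = 2 ^ 1 := by norm_num
      _ ≤ 2 ^ (E + 1) := Nat.pow_le_pow_right (by norm_num) (by omega))
  have h6 : Real.log (Real.log ((2 ^ (E + 1) : ℕ) : ℝ)) ≤ Real.log (2 * E) := by
    push_cast
    rw [Real.log_pow]
    apply Real.log_le_log
    · positivity
    · push_cast
      nlinarith
  have h7 : ∑ q ∈ N, 1 / ((q : ℝ) - 1) ≤ Real.log (2 * E) + (C + 1) := by linarith
  calc Real.exp (-(C + 1)) / 2 / E = Real.exp (-(Real.log (2 * E) + (C + 1))) := by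
        rw [neg_add (Real.log (2 * E)) (C + 1), Real.exp_add, Real.exp_neg (Real.log (2 * E)),
          Real.exp_log (by positivity)]
        field_simp
    _ ≤ Real.exp (-∑ q ∈ N, 1 / ((q : ℝ) - 1)) := Real.exp_le_exp.2 (by linarith)

end Pool.Agent.Helper6.ER
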